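import Pool.Agent.Helper79.GL4.GoalsR

/-!
# GL4: the proof of N2 (MP_27a5f8_al)
-/

set_option linter.unusedVariables false
set_option linter.unusedSectionVars false
set_option linter.style.haveILetI false

namespace GL4

open Module Submodule
open scoped ComplexOrder

namespace N2h

section gen
variable {G : Type} [Group G] [Finite G]

/-- a representation with a nonzero `K`-fixed vector marks `K`. -/
theorem marks_of_inv {W : Type} [AddCommGroup W] [Module ℂ W] [FiniteDimensional ℂ W]
    (ρ : Representation ℂ G W) (K : Subgroup G) (w : W) (hw : w ≠ 0)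
    (h : ∀ k ∈ K, ρ k w = w) : Marks ρ.character K := by
  classical
  haveI : Fintype K := Fintype.ofFinite K
  have hc : (Nat.card K : ℂ) ≠ 0 := by exact_mod_cast Nat.card_pos.ne'
  letI : Invertible (Nat.card K : ℂ) := invertibleOfNonzero hc
  let σ : Representation ℂ K W := ρ.comp K.subtype
  have h1 := Representation.card_inv_mul_sum_char_eq_finrank σ
  unfold Marks ip
  rw [finsum_eq_sum_of_fintype]
  have h2 : ∑ g : K, ρ.character (g : G) * (starRingEnd ℂ) ((1 : G → ℂ) g) =
      ∑ g : K, σ.character g := by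
    apply Finset.sum_congr rfl
    intro g _
    simp only [Pi.one_apply, map_one, mul_one]
    rfl
  rw [h2, h1]
  have h3 : 0 < finrank ℂ (Representation.invariants σ) := by
    rw [finrank_pos_iff_exists_ne_zero]
    exact ⟨⟨w, fun k => h k k.2⟩, fun hh => hw (congrArg Subtype.val hh)⟩
  exact_mod_cast h3

variable {Y : Type} [Fintype Y] [MulAction G Y] (eta : G →* ℂˣ)

/-- the sum of the values -/
noncomputable def sumL (Y : Type) [Fintype Y] : (Y → ℂ) →ₗ[ℂ] ℂ where
  toFun f := ∑ y, f y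
  map_add' f g := by simp [Finset.sum_add_distrib]
  map_smul' c f := by simp [Finset.mul_sum]

/-- twisted permutation representation -/
noncomputable def tw (Y : Type) [MulAction G Y] : Representation ℂ G (Y → ℂ) where
  toFun g :=
    { toFun := fun f x => (eta g : ℂ) * f (g⁻¹ • x)
      map_add' := fun f h => by ext x; simp [mul_add]
      map_smul' := fun c f => by ext x; simp; ring }
  map_one' := by
    apply LinearMap.ext; intro f; ext x
    simp
  map_mul' g h := by
    apply LinearMap.ext; intro f; ext x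
    simp [mul_smul, mul_assoc]

theorem tw_apply (g : G) (f : Y → ℂ) (x : Y) : tw eta Y g f x = (eta g : ℂ) * f (g⁻¹ • x) := rfl

theorem sum_tw (g : G) (f : Y → ℂ) : ∑ x, tw eta Y g f x = (eta g : ℂ) * ∑ x, f x := by
  simp only [tw_apply]
  rw [← Finset.mul_sum]
  congr 1
  exact Equiv.sum_comp (MulAction.toPerm (g⁻¹ : G) : Equiv.Perm Y) f

/-- the sum zero functions -/
noncomputable def sz (Y : Type) [Fintype Y] : Submodule ℂ (Y → ℂ) := LinearMap.ker (sumL Y)

theorem mem_sz {f : Y → ℂ} : f ∈ sz Y ↔ ∑ x, f x = 0 := Iff.rfl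

/-- the representation on the sum zero functions -/
noncomputable def tw2 (Y : Type) [Fintype Y] [MulAction G Y] : Representation ℂ G (sz Y) where
  toFun g := (tw eta Y g).restrict (p := sz Y) (q := sz Y) (by
    intro f hf
    rw [mem_sz] at hf ⊢
    rw [sum_tw, hf, mul_zero])
  map_one' := by
    apply LinearMap.ext; intro f; apply Subtype.ext
    show tw eta Y 1 f = f
    simp
  map_mul' g h := by
    apply LinearMap.ext; intro f; apply Subtype.ext
    show tw eta Y (g * h) f = tw eta Y g (tw eta Y h f)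
    rw [map_mul]; rfl

theorem tw2_apply (g : G) (f : sz Y) : ((tw2 eta Y g f : sz Y) : Y → ℂ) = tw eta Y g f := rfl

/-- the one-dimensional representation -/
noncomputable def tw1 : Representation ℂ G ℂ where
  toFun g := (eta g : ℂ) • LinearMap.id
  map_one' := by simp; rfl
  map_mul' g h := by
    apply LinearMap.ext; intro c
    simp [mul_assoc, mul_left_comm]

theorem tw1_apply (g : G) (c : ℂ) : tw1 eta g c = (eta g : ℂ) * c := rfl

theorem char_tw1 (g : G) : (tw1 eta).character g = (eta g : ℂ) := by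
  unfold Representation.character
  show LinearMap.trace ℂ ℂ ((eta g : ℂ) • LinearMap.id) = _
  rw [map_smul, LinearMap.trace_id]
  simp

theorem irr_tw1 : (tw1 eta).IsIrreducible := by
  haveI : Nontrivial (Subrepresentation (tw1 eta)) := by
    refine ⟨⊥, ⊤, fun h => ?_⟩
    have h2 : (⊥ : Submodule ℂ ℂ) = ⊤ := congrArg Subrepresentation.toSubmodule h
    exact bot_ne_top h2
  refine { eq_bot_or_eq_top := fun U => ?_ }
  rcases eq_bot_or_eq_top U.toSubmodule with h | h
  · left; exact Subrepresentation.toSubmodule_injective h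
  · right; exact Subrepresentation.toSubmodule_injective h

/-- the core of the irreducibility of the sum zero functions of a 2-transitive group -/
theorem core (h2t : ∀ x y z : Y, y ≠ x → z ≠ x → ∃ g : G, g • x = x ∧ g • y = z)
    (htr : ∀ x y : Y, ∃ g : G, g • x = y) (hc : 2 ≤ Fintype.card Y)
    (U : Submodule ℂ (Y → ℂ)) (hU : ∀ (g : G) (f : Y → ℂ), f ∈ U → (fun x => f (g⁻¹ • x)) ∈ U)
    (hs : ∀ f ∈ U, ∑ x, f x = 0) (f : Y → ℂ) (hf : f ∈ U) (hf0 : f ≠ 0) (d : Y → ℂ)
    (hd : ∑ x, d x = 0) : d ∈ U := by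
  classical
  haveI : Fintype G := Fintype.ofFinite G
  obtain ⟨x, hx⟩ : ∃ x, f x ≠ 0 := by
    by_contra hcon
    push Not at hcon
    exact hf0 (funext hcon)
  -- average
  let T : Finset G := Finset.univ.filter (fun g => g • x = x)
  have hT : ∀ g, g ∈ T ↔ g • x = x := fun g => by simp [T]
  let f1 : Y → ℂ := ∑ g ∈ T, (fun y => f (g⁻¹ • y))
  have hf1 : f1 ∈ U := Submodule.sum_mem _ fun g _ => hU g f hf
  have hf1v : ∀ y, f1 y = ∑ g ∈ T, f (g⁻¹ • y) := fun y => by simp [f1]
  have h1x : f1 x = (T.card : ℂ) * f x := by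
    rw [hf1v, Finset.sum_congr rfl (g := fun _ => f x)]
    · simp
    · intro g hg
      rw [hT] at hg
      congr 1
      rw [inv_smul_eq_iff, hg]
  have hTc : (T.card : ℂ) ≠ 0 := by
    have : 0 < T.card := Finset.card_pos.2 ⟨1, by simp [T]⟩
    exact_mod_cast this.ne'
  have ha : f1 x ≠ 0 := by rw [h1x]; exact mul_ne_zero hTc hx
  have hconst : ∀ y z, y ≠ x → z ≠ x → f1 y = f1 z := by
    intro y z hy hz
    obtain ⟨h, hhx, hhy⟩ := h2t x y z hy hz
    rw [hf1v, hf1v, ← hhy]
    refine Finset.sum_bij (fun g _ => h * g) ?_ ?_ ?_ ?_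
    · intro g hg
      rw [hT] at hg ⊢
      rw [mul_smul, hg, hhx]
    · intro g _ g' _ hgg
      exact mul_left_cancel hgg
    · intro g hg
      rw [hT] at hg
      refine ⟨h⁻¹ * g, ?_, by simp⟩
      rw [hT, mul_smul, hg, inv_smul_eq_iff, hhx]
    · intro g _
      rw [mul_inv_rev, mul_smul, inv_smul_smul]
  -- another point
  obtain ⟨y0, hy0⟩ : ∃ y, y ≠ x := by
    have : 1 < Fintype.card Y := by omega
    haveI := Fintype.one_lt_card_iff_nontrivial.1 this
    exact exists_ne x
  set a := f1 x with ha'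
  set b := f1 y0 with hb'
  have hb : ∀ y, y ≠ x → f1 y = b := fun y hy => hconst y y0 hy hy0
  have hab : a ≠ b := by
    intro hab
    have h3 : ∀ y, f1 y = a := by
      intro y
      by_cases hy : y = x
      · rw [hy]
      · rw [hb y hy, hab]
    have h4 := hs f1 hf1
    rw [Finset.sum_congr rfl (g := fun _ => a) (fun y _ => h3 y)] at h4
    simp only [Finset.sum_const, Finset.card_univ, nsmul_eq_mul] at h4
    rcases mul_eq_zero.1 h4 with h5 | h5
    · have : Fintype.card Y = 0 := by exact_mod_cast h5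
      omega
    · exact ha h5
  -- all translates
  have he : ∀ y : Y, ∃ e ∈ U, ∀ z, e z = (a - b) * (if z = y then 1 else 0) + b := by
    intro y
    obtain ⟨g, hg⟩ := htr x y
    refine ⟨_, hU g f1 hf1, fun z => ?_⟩
    by_cases hz : z = y
    · have : g⁻¹ • z = x := by rw [hz, inv_smul_eq_iff, hg]
      simp [hz, ← hg, ← ha']
    · have : g⁻¹ • z ≠ x := by
        rw [ne_eq, inv_smul_eq_iff, hg]; exact hz
      simp [hb _ this, hz]
  choose e heU hev using he
  have hd2 : d = ∑ y, ((a - b)⁻¹ * d y) • e y := by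
    funext z
    rw [Finset.sum_apply]
    have h6 : ∀ y, (((a - b)⁻¹ * d y) • e y) z =
        (if z = y then d y else 0) + ((a - b)⁻¹ * b) * d y := by
      intro y
      have hne : a - b ≠ 0 := sub_ne_zero.2 hab
      rw [Pi.smul_apply, hev, smul_eq_mul]
      split_ifs with h
      · field_simp
        try ring
      · ring
    rw [Finset.sum_congr rfl (fun y _ => h6 y), Finset.sum_add_distrib, ← Finset.mul_sum, hd]
    simp
  rw [hd2]
  exact Submodule.sum_mem _ fun y _ => U.smul_mem _ (heU y)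

theorem irr_tw2 (h2t : ∀ x y z : Y, y ≠ x → z ≠ x → ∃ g : G, g • x = x ∧ g • y = z)
    (htr : ∀ x y : Y, ∃ g : G, g • x = y) (hc : 2 ≤ Fintype.card Y) :
    (tw2 eta Y).IsIrreducible := by
  classical
  haveI : Nontrivial (sz Y) := by
    obtain ⟨x, y, hxy⟩ := Fintype.one_lt_card_iff.1 (show 1 < Fintype.card Y by omega)
    refine ⟨⟨fun z => (if z = x then 1 else 0) - (if z = y then 1 else 0), ?_⟩, 0, ?_⟩
    · rw [mem_sz, Finset.sum_sub_distrib]
      simp
    · intro h
      have h2 := congrFun (congrArg Subtype.val h) x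
      simp [hxy] at h2
  haveI : Nontrivial (Subrepresentation (tw2 eta Y)) := by
    refine ⟨⊥, ⊤, fun h => ?_⟩
    have h2 : (⊥ : Submodule ℂ (sz Y)) = ⊤ := congrArg Subrepresentation.toSubmodule h
    exact bot_ne_top h2
  refine { eq_bot_or_eq_top := fun U => ?_ }
  by_cases hU : U.toSubmodule = ⊥
  · left; exact Subrepresentation.toSubmodule_injective hU
  right
  apply Subrepresentation.toSubmodule_injective
  show U.toSubmodule = ⊤
  rw [eq_top_iff]
  rintro d -
  obtain ⟨f, hf, hf0⟩ := (Submodule.ne_bot_iff _).1 hU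
  have key := core (G := G) h2t htr hc (U.toSubmodule.map (sz Y).subtype) ?_ ?_ (f : Y → ℂ)
    ⟨f, hf, rfl⟩ (fun h => hf0 (Subtype.ext h)) (d : Y → ℂ) d.2
  · obtain ⟨d', hd', hdd⟩ := key
    have : d' = d := Subtype.ext hdd
    rw [← this]; exact hd'
  · rintro g _ ⟨f', hf', rfl⟩
    refine ⟨((eta g : ℂ)⁻¹) • (tw2 eta Y g f'), U.toSubmodule.smul_mem _
      (U.apply_mem_toSubmodule g hf'), ?_⟩
    funext x
    show (eta g : ℂ)⁻¹ * ((eta g : ℂ) * (f' : Y → ℂ) (g⁻¹ • x)) = _
    rw [inv_mul_cancel_left₀ (Units.ne_zero _)]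
    rfl
  · rintro _ ⟨f', hf', rfl⟩
    exact f'.2

theorem finrank_sz (hc : 3 ≤ Fintype.card Y) : 2 ≤ finrank ℂ (sz Y) := by
  have h1 := LinearMap.finrank_range_add_finrank_ker (sumL Y)
  have h2 : finrank ℂ (LinearMap.range (sumL Y)) ≤ 1 := by
    refine (Submodule.finrank_le _).trans ?_
    simp
  have h3 : finrank ℂ (Y → ℂ) = Fintype.card Y := by simp
  rw [h3] at h1
  unfold sz
  omega

end gen

section geo
variable {F : Type} [Field F] {V : Type} [AddCommGroup V] [Module F V] [FiniteDimensional F V]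

theorem exists_map (h2 : finrank F V = 2) {x y x' y' : Submodule F V} (hx : Pt x) (hy : Pt y)
    (hx' : Pt x') (hy' : Pt y') (hxy : x ≠ y) (hxy' : x' ≠ y') :
    ∃ g : V ≃ₗ[F] V, im g x = x' ∧ im g y = y' := by
  obtain ⟨u, hu, rfl⟩ := hx.exists_span
  obtain ⟨v, hv, rfl⟩ := hy.exists_span
  obtain ⟨u', hu', rfl⟩ := hx'.exists_span
  obtain ⟨v', hv', rfl⟩ := hy'.exists_span
  have key : ∀ {u v : V}, u ≠ 0 → v ≠ 0 → (F ∙ u) ≠ (F ∙ v) → LinearIndependent F ![u, v] := by
    intro u v hu hv h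
    rw [LinearIndependent.pair_iff' hu]
    intro a ha
    apply h
    have ha0 : a ≠ 0 := by rintro rfl; rw [zero_smul] at ha; exact hv ha.symm
    rw [← ha]
    exact (Submodule.span_singleton_smul_eq (IsUnit.mk0 a ha0) u).symm
  have b1 := key hu hv hxy
  have b2 := key hu' hv' hxy'
  have hcard : Fintype.card (Fin 2) = finrank F V := by simp [h2]
  let B1 := basisOfLinearIndependentOfCardEqFinrank b1 hcard
  let B2 := basisOfLinearIndependentOfCardEqFinrank b2 hcard
  refine ⟨B1.equiv B2 (Equiv.refl _), ?_, ?_⟩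
  · rw [im_span_singleton]
    have h0 : B1 0 = u := by simp [B1]
    have h0' : B2 0 = u' := by simp [B2]
    have : (B1.equiv B2 (Equiv.refl _)) u = u' := by
      rw [← h0, Basis.equiv_apply, Equiv.refl_apply, h0']
    rw [this]
  · rw [im_span_singleton]
    have h0 : B1 1 = v := by simp [B1]
    have h0' : B2 1 = v' := by simp [B2]
    have : (B1.equiv B2 (Equiv.refl _)) v = v' := by
      rw [← h0, Basis.equiv_apply, Equiv.refl_apply, h0']
    rw [this]

theorem exists_three (h2 : finrank F V = 2) : ∃ x y z : Submodule F V, Pt x ∧ Pt y ∧ Pt z ∧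
    x ≠ y ∧ x ≠ z ∧ y ≠ z := by
  let b : Basis (Fin 2) F V := finBasisOfFinrankEq F V h2
  have hi := b.linearIndependent
  have h01 : ∀ s t : F, s • b 0 + t • b 1 = 0 → s = 0 ∧ t = 0 := by
    have hb : ![b 0, b 1] = (b : Fin 2 → V) := by
      funext i; fin_cases i <;> rfl
    rw [← hb] at hi
    exact LinearIndependent.pair_iff.1 hi
  have n0 : b 0 ≠ 0 := b.ne_zero 0
  have n1 : b 1 ≠ 0 := b.ne_zero 1
  have n2 : b 0 + b 1 ≠ 0 := by
    intro h
    have := (h01 1 1 (by simpa using h)).1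
    exact one_ne_zero this
  refine ⟨F ∙ b 0, F ∙ b 1, F ∙ (b 0 + b 1), pt_span n0, pt_span n1, pt_span n2, ?_, ?_, ?_⟩
  · intro h
    have : b 1 ∈ F ∙ b 0 := by rw [h]; exact mem_span_singleton_self _
    obtain ⟨a, ha⟩ := mem_span_singleton.1 this
    have := (h01 a (-1) (by rw [ha]; simp)).2
    exact one_ne_zero (neg_eq_zero.1 this)
  · intro h
    have : b 0 + b 1 ∈ F ∙ b 0 := by rw [h]; exact mem_span_singleton_self _
    obtain ⟨a, ha⟩ := mem_span_singleton.1 this
    have := (h01 (a - 1) (-1) (by rw [sub_smul, ha]; simp)).2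
    exact one_ne_zero (neg_eq_zero.1 this)
  · intro h
    have : b 0 + b 1 ∈ F ∙ b 1 := by rw [h]; exact mem_span_singleton_self _
    obtain ⟨a, ha⟩ := mem_span_singleton.1 this
    have := (h01 (-1) (a - 1) (by rw [sub_smul, ha]; simp)).1
    exact one_ne_zero (neg_eq_zero.1 this)

theorem exists_det (h2 : finrank F V = 2) {a : F} (ha : a ≠ 0) :
    ∃ g : V ≃ₗ[F] V, LinearMap.det (g : V →ₗ[F] V) = a := by
  let b : Basis (Fin 2) F V := finBasisOfFinrankEq F V h2
  have hd : LinearMap.det (Matrix.toLin b b (Matrix.diagonal ![a, 1])) = a := by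
    rw [LinearMap.det_toLin, Matrix.det_diagonal]
    simp
  refine ⟨LinearMap.equivOfDetNeZero _ (by rw [hd]; exact ha), ?_⟩
  have h3 : ((LinearMap.equivOfDetNeZero _ (by rw [hd]; exact ha) : V ≃ₗ[F] V) : V →ₗ[F] V) =
      Matrix.toLin b b (Matrix.diagonal ![a, 1]) := by
    apply LinearMap.ext; intro v; rfl
  rw [h3, hd]

end geo

end N2h

open N2h in
theorem n2 : N2 := by
  intro F _ _ V _ _ _ hV hF
  classical
  haveI : Fintype F := Fintype.ofFinite F
  haveI : Fintype (Pts F V) := Fintype.ofFinite _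
  let chi : MulChar F ℂ := (quadraticChar F).ringHomComp (Int.castRingHom ℂ)
  let eta : (V ≃ₗ[F] V) →* ℂˣ := (MulChar.toUnitHom chi).comp LinearEquiv.det
  have hdet : ∀ g : V ≃ₗ[F] V, LinearMap.det (g : V →ₗ[F] V) ≠ 0 := by
    intro g
    have := (LinearEquiv.det g).ne_zero
    rwa [LinearEquiv.coe_det] at this
  have heta : ∀ g : V ≃ₗ[F] V, (eta g : ℂ) =
      ((quadraticChar F (LinearMap.det (g : V →ₗ[F] V)) : ℤ) : ℂ) := by
    intro g
    show ((MulChar.toUnitHom chi (LinearEquiv.det g) : ℂˣ) : ℂ) = _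
    rw [MulChar.coe_toUnitHom, LinearEquiv.coe_det]
    rfl
  have hsq : ∀ g : V ≃ₗ[F] V, IsSquare (LinearMap.det (g : V →ₗ[F] V)) → eta g = 1 := by
    intro g hg
    apply Units.ext
    rw [heta, (quadraticChar_one_iff_isSquare (hdet g)).2 hg]
    simp
  -- facts on the points
  have h2t : ∀ x y z : Pts F V, y ≠ x → z ≠ x → ∃ g : V ≃ₗ[F] V, g • x = x ∧ g • y = z := by
    intro x y z hy hz
    obtain ⟨g, h1, h2⟩ := exists_map hV x.2 y.2 x.2 z.2 (fun h => hy (Subtype.ext h.symm))
      (fun h => hz (Subtype.ext h.symm))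
    exact ⟨g, Subtype.ext h1, Subtype.ext h2⟩
  obtain ⟨p1, p2, p3, hp1, hp2, hp3, h12, h13, h23⟩ := exists_three hV
  have hother : ∀ x : Pts F V, ∃ y : Pts F V, x ≠ y := by
    intro x
    by_cases hx : x.1 = p1
    · exact ⟨⟨p2, hp2⟩, fun h => h12 (by rw [← hx, h])⟩
    · exact ⟨⟨p1, hp1⟩, fun h => hx (by rw [h])⟩
  have htr : ∀ x y : Pts F V, ∃ g : V ≃ₗ[F] V, g • x = y := by
    intro x y
    obtain ⟨x', hx'⟩ := hother x
    obtain ⟨y', hy'⟩ := hother y
    obtain ⟨g, h1, h2⟩ := exists_map hV x.2 x'.2 y.2 y'.2 (fun h => hx' (Subtype.ext h))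
      (fun h => hy' (Subtype.ext h))
    exact ⟨g, Subtype.ext h1⟩
  have hcard : 3 ≤ Fintype.card (Pts F V) := by
    have : ({⟨p1, hp1⟩, ⟨p2, hp2⟩, ⟨p3, hp3⟩} : Finset (Pts F V)).card = 3 := by
      rw [Finset.card_eq_three]
      exact ⟨_, _, _, fun h => h12 (congrArg Subtype.val h), fun h => h13 (congrArg Subtype.val h),
        fun h => h23 (congrArg Subtype.val h), rfl⟩
    rw [← this]
    exact Finset.card_le_univ _
  refine ⟨{(tw1 eta).character, (tw2 eta (Pts F V)).character}, Set.toFinite _, ?_, ?_, ?_⟩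
  · refine (Set.ncard_insert_le _ _).trans ?_
    rw [Set.ncard_singleton]
  · intro χ hχ
    rcases hχ with rfl | rfl
    · refine ⟨⟨ℂ, inferInstance, inferInstance, inferInstance, tw1 eta, irr_tw1 eta, rfl⟩, ?_⟩
      intro h
      obtain ⟨a, ha⟩ := FiniteField.exists_nonsquare hF
      have ha0 : a ≠ 0 := by rintro rfl; exact ha ⟨0, by simp⟩
      obtain ⟨g, hg⟩ := exists_det (V := V) hV ha0
      have h3 := congrFun h g
      rw [char_tw1, heta, hg, Pi.one_apply] at h3
      have h4 : quadraticChar F a = 1 := by exact_mod_cast h3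
      exact ha ((quadraticChar_one_iff_isSquare ha0).1 h4)
    · refine ⟨⟨sz (Pts F V), inferInstance, inferInstance, inferInstance, tw2 eta (Pts F V),
        irr_tw2 eta h2t htr (by omega), rfl⟩, ?_⟩
      intro h
      have h3 := congrFun h 1
      rw [Representation.char_one, Pi.one_apply] at h3
      have h4 : finrank ℂ (sz (Pts F V)) = 1 := by exact_mod_cast h3
      have h5 := finrank_sz (Y := Pts F V) hcard
      omega
  · intro K hK hm P hP
    by_contra hcon
    push Not at hcon
    let P0 : Pts F V := ⟨P, hP⟩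
    have hex : ∀ y : Pts F V, ∃ k : V ≃ₗ[F] V, k ∈ K ∧ k • P0 = y := by
      intro y
      obtain ⟨k, hk, h⟩ := hK P y.1 hP y.2
      exact ⟨k, hk, Subtype.ext h⟩
    choose kk hkK hkk using hex
    have hwd : ∀ k ∈ K, ∀ k' ∈ K, k • P0 = k' • P0 → eta k = eta k' := by
      intro k hk k' hk' h
      have h1 : (k'⁻¹ * k) • P0 = P0 := by rw [mul_smul, h, inv_smul_smul]
      have h2 := hsq _ (hcon (k'⁻¹ * k) (K.mul_mem (K.inv_mem hk') hk) (congrArg Subtype.val h1))
      rw [map_mul, map_inv] at h2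
      have h3 := inv_mul_eq_one.1 h2
      exact h3.symm
    let f : Pts F V → ℂ := fun y => (eta (kk y) : ℂ)
    have hf0 : f ≠ 0 := by
      intro h
      have := congrFun h P0
      exact Units.ne_zero _ this
    have hinv : ∀ k ∈ K, tw eta (Pts F V) k f = f := by
      intro k hk
      funext y
      rw [tw_apply]
      show (eta k : ℂ) * (eta (kk (k⁻¹ • y)) : ℂ) = (eta (kk y) : ℂ)
      rw [← Units.val_mul, ← map_mul]
      congr 1
      apply hwd _ (K.mul_mem hk (hkK _)) _ (hkK _)
      rw [mul_smul, hkk, hkk, smul_inv_smul]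
    by_cases hs : ∑ y, f y = 0
    · apply hm (tw2 eta (Pts F V)).character (Or.inr rfl)
      apply marks_of_inv _ K ⟨f, hs⟩ (fun h => hf0 (congrArg Subtype.val h))
      intro k hk
      apply Subtype.ext
      rw [tw2_apply]
      exact hinv k hk
    · apply hm (tw1 eta).character (Or.inl rfl)
      apply marks_of_inv _ K (∑ y, f y) hs
      intro k hk
      rw [tw1_apply, ← sum_tw, hinv k hk]

end GL4
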