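import Pool.Agent.Helper79.GL4.GoalsB

/-!
# GL4: the proof of NTRI (MP_27a5f8_al)
-/

set_option linter.unusedVariables false
set_option linter.unusedSectionVars false
set_option linter.style.haveILetI false

namespace GL4

open Module Submodule

namespace NTri

open MvPolynomial Matrix

theorem sum_antisymm {ι R : Type*} [Fintype ι] [CommRing R] (f : ι → ι → R)
    (h1 : ∀ i, f i i = 0) (h2 : ∀ i k, f i k + f k i = 0) : ∑ i, ∑ k, f i k = 0 := by
  classical
  rw [← Finset.sum_product']
  apply Finset.sum_involution (fun a _ => (a.2, a.1))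
  · rintro ⟨i, k⟩ _
    exact h2 i k
  · rintro ⟨i, k⟩ _ h heq
    apply h
    have : k = i := congrArg Prod.fst heq
    subst this
    exact h1 _
  · rintro ⟨i, k⟩ _
    exact Finset.mem_product.2 ⟨Finset.mem_univ _, Finset.mem_univ _⟩
  · rintro ⟨i, k⟩ _
    rfl

variable {F : Type} [Field F] {V : Type} [AddCommGroup V] [Module F V] [FiniteDimensional F V]

section alt
variable {t : V →ₗ[F] V →ₗ[F] V →ₗ[F] F} (h1 : ∀ p x, t p x x = 0) (h2 : ∀ p x, t p p x = 0)
include h1 h2

theorem sw23 (p x y : V) : t p x y = - t p y x := by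
  have h := h1 p (x + y)
  simp only [map_add, LinearMap.add_apply, h1, zero_add, add_zero] at h
  exact eq_neg_of_add_eq_zero_right h

theorem sw12 (p x y : V) : t p x y = - t x p y := by
  have h := h2 (p + x) y
  simp only [map_add, LinearMap.add_apply, h2, zero_add, add_zero] at h
  exact eq_neg_of_add_eq_zero_right h

theorem sw13 (p x y : V) : t p x y = - t y x p := by
  rw [sw12 h1 h2, sw23 h1 h2, sw12 h1 h2]
  simp

theorem t13 (p x : V) : t p x p = 0 := by
  rw [sw12 h1 h2, h1, neg_zero]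

end alt

variable {n : ℕ} (t : V →ₗ[F] V →ₗ[F] V →ₗ[F] F) (b : Basis (Fin n) F V)

/-- the matrix of linear forms -/
noncomputable def M : Matrix (Fin n) (Fin n) (MvPolynomial (Fin n) F) :=
  fun j k => ∑ i, C (t (b i) (b j) (b k)) * X i

/-- its value -/
noncomputable def Mp (p : Fin n → F) : Matrix (Fin n) (Fin n) F := (M t b).map (eval p)

theorem Mp_apply (p : Fin n → F) (j k : Fin n) :
    Mp t b p j k = t (b.equivFun.symm p) (b j) (b k) := by
  unfold Mp M
  rw [Matrix.map_apply, map_sum, Basis.equivFun_symm_apply, map_sum, LinearMap.sum_apply,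
    LinearMap.sum_apply]
  apply Finset.sum_congr rfl
  intro i _
  simp [mul_comm]

variable {t}

theorem M_transpose (h1 : ∀ p x, t p x x = 0) (h2 : ∀ p x, t p p x = 0) :
    (M t b)ᵀ = - M t b := by
  ext1 j k
  rw [Matrix.transpose_apply, Matrix.neg_apply]
  unfold M
  rw [← Finset.sum_neg_distrib]
  apply Finset.sum_congr rfl
  intro i _
  rw [sw23 h1 h2]
  simp

theorem M_mulVec_X (h1 : ∀ p x, t p x x = 0) (h2 : ∀ p x, t p p x = 0) :
    (M t b) *ᵥ X = 0 := by
  funext j
  rw [Pi.zero_apply]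
  show ∑ k, M t b j k * X k = 0
  unfold M
  simp only [Finset.sum_mul]
  apply sum_antisymm
  · intro i
    rw [t13 h1 h2]
    simp
  · intro i k
    rw [sw13 h1 h2 (b i) (b j) (b k)]
    simp only [map_neg]
    ring

theorem Mp_mulVec (h1 : ∀ p x, t p x x = 0) (h2 : ∀ p x, t p p x = 0) (p v : Fin n → F)
    (j : Fin n) : (Mp t b p *ᵥ v) j = t (b.equivFun.symm p) (b j) (b.equivFun.symm v) := by
  show ∑ k, Mp t b p j k * v k = _
  rw [Basis.equivFun_symm_apply b v, map_sum]
  apply Finset.sum_congr rfl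
  intro k _
  rw [Mp_apply, map_smul, smul_eq_mul, mul_comm]

theorem sum_Mp_mulVec (h1 : ∀ p x, t p x x = 0) (h2 : ∀ p x, t p p x = 0) (p v : Fin n → F) :
    ∑ j, p j * (Mp t b p *ᵥ v) j = 0 := by
  have h : t (b.equivFun.symm p) (b.equivFun.symm p) (b.equivFun.symm v) = 0 := h2 _ _
  rw [← h]
  conv_rhs => rw [show t (b.equivFun.symm p) (b.equivFun.symm p) =
    ∑ j, p j • t (b.equivFun.symm p) (b j) from by
      conv_lhs => rw [Basis.equivFun_symm_apply b p]
      rw [map_sum]
      simp only [map_smul, Basis.equivFun_symm_apply b p] ]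
  rw [LinearMap.sum_apply]
  apply Finset.sum_congr rfl
  intro j _
  rw [Mp_mulVec b h1 h2]
  rfl

theorem ker_Mp (h1 : ∀ p x, t p x x = 0) (h2 : ∀ p x, t p p x = 0)
    (h3 : ∀ p x, p ≠ 0 → (t p x = 0 ↔ x ∈ F ∙ p)) (p v : Fin n → F) (hp : p ≠ 0)
    (hv : Mp t b p *ᵥ v = 0) : ∃ c : F, v = c • p := by
  have hP : b.equivFun.symm p ≠ 0 := by
    intro h
    apply hp
    exact (LinearEquiv.map_eq_zero_iff _).1 h
  have h4 : t (b.equivFun.symm p) (b.equivFun.symm v) = 0 := by
    apply b.ext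
    intro j
    rw [sw23 h1 h2, ← Mp_mulVec b h1 h2, hv]
    simp
  obtain ⟨c, hc⟩ := mem_span_singleton.1 ((h3 _ _ hP).1 h4)
  refine ⟨c, ?_⟩
  apply b.equivFun.symm.injective
  rw [map_smul, hc]

theorem adj_eval_ne (h1 : ∀ p x, t p x x = 0) (h2 : ∀ p x, t p p x = 0)
    (h3 : ∀ p x, p ≠ 0 → (t p x = 0 ↔ x ∈ F ∙ p)) (p : Fin n → F) (i : Fin n) (hpi : p i ≠ 0) :
    eval p (adjugate (M t b) i i) ≠ 0 := by
  have hp : p ≠ 0 := by rintro rfl; exact hpi rfl
  have h4 : eval p (adjugate (M t b) i i) = adjugate (Mp t b p) i i := by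
    have := RingHom.map_adjugate (eval p) (M t b)
    have h5 := congrFun (congrFun this i) i
    exact h5
  rw [h4, adjugate_apply]
  intro hdet
  obtain ⟨v, hv0, hv⟩ := Matrix.exists_mulVec_eq_zero_iff.2 hdet
  have hi : v i = 0 := by
    have := congrFun hv i
    simpa [Matrix.mulVec, Matrix.updateRow_self] using this
  have hj : ∀ j, j ≠ i → (Mp t b p *ᵥ v) j = 0 := by
    intro j hj
    have := congrFun hv j
    simpa [Matrix.mulVec, Matrix.updateRow_ne hj] using this
  have hs := sum_Mp_mulVec b h1 h2 p v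
  rw [Finset.sum_eq_single i (fun j _ hji => by rw [hj j hji, mul_zero])
    (fun h => absurd (Finset.mem_univ _) h)] at hs
  have hi2 : (Mp t b p *ᵥ v) i = 0 := (mul_eq_zero.1 hs).resolve_left hpi
  obtain ⟨c, hc⟩ := ker_Mp b h1 h2 h3 p v hp (by
    funext j
    by_cases hji : j = i
    · rw [hji]; exact hi2
    · exact hj j hji)
  rw [hc] at hi
  have hc0 : c = 0 := (mul_eq_zero.1 hi).resolve_right hpi
  exact hv0 (by rw [hc, hc0, zero_smul])

theorem prop (h1 : ∀ p x, t p x x = 0) (h2 : ∀ p x, t p p x = 0)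
    (h3 : ∀ p x, p ≠ 0 → (t p x = 0 ↔ x ∈ F ∙ p)) (v : Fin n → MvPolynomial (Fin n) F)
    (hv : M t b *ᵥ v = 0) (i j : Fin n) : X i * v j = v i * X j := by
  have hne : ((M t b).updateRow i (Pi.single i 1)).det ≠ 0 := by
    rw [← adjugate_apply]
    intro h
    apply adj_eval_ne b h1 h2 h3 (Pi.single i 1) i (by simp)
    rw [h]; simp
  let w : Fin n → MvPolynomial (Fin n) F :=
    (X i : MvPolynomial (Fin n) F) • v - v i • (X : Fin n → MvPolynomial (Fin n) F)
  have hw : M t b *ᵥ w = 0 := by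
    rw [Matrix.mulVec_sub, Matrix.mulVec_smul, Matrix.mulVec_smul, hv, M_mulVec_X b h1 h2]
    simp
  have hw2 : ((M t b).updateRow i (Pi.single i 1)) *ᵥ w = 0 := by
    funext j
    by_cases hj : j = i
    · subst hj
      simp [Matrix.mulVec, Matrix.updateRow_self, w]
      ring
    · have := congrFun hw j
      simpa [Matrix.mulVec, Matrix.updateRow_ne hj] using this
  have hw0 := Matrix.eq_zero_of_mulVec_eq_zero hne hw2
  have := congrFun hw0 j
  simp only [w, Pi.sub_apply, Pi.smul_apply, smul_eq_mul, Pi.zero_apply] at this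
  exact sub_eq_zero.1 this

theorem adj_homog {m : ℕ} (t : V →ₗ[F] V →ₗ[F] V →ₗ[F] F) (b : Basis (Fin (m + 1)) F V)
    (i : Fin (m + 1)) : (adjugate (M t b) i i).IsHomogeneous m := by
  rw [adjugate_fin_succ_eq_det_submatrix]
  have h0 : ((-1 : MvPolynomial (Fin (m + 1)) F) ^ ((i : ℕ) + i)) = 1 := by
    rw [← two_mul, pow_mul]; simp
  rw [h0, one_mul, Matrix.det_apply]
  apply IsHomogeneous.sum
  intro σ _
  have h1 : (∏ k : Fin m, ((M t b).submatrix i.succAbove i.succAbove) (σ k) k).IsHomogeneous m := by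
    have := IsHomogeneous.prod Finset.univ
      (fun k : Fin m => ((M t b).submatrix i.succAbove i.succAbove) (σ k) k) (fun _ => 1) (by
        intro k _
        rw [Matrix.submatrix_apply]
        unfold M
        apply IsHomogeneous.sum
        intro l _
        exact isHomogeneous_C_mul_X _ _)
    simpa using this
  rcases Int.units_eq_one_or (Equiv.Perm.sign σ) with h | h
  · rw [h, one_smul]; exact h1
  · rw [h, Units.neg_smul, one_smul]; exact h1.neg

end NTri

open NTri MvPolynomial Matrix in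
theorem ntri : NTRI := by
  intro F _ _ V _ _ _ hV t h1 h2 h3
  classical
  haveI : Fintype F := Fintype.ofFinite F
  obtain ⟨m, hm⟩ : ∃ m, finrank F V = m + 1 := ⟨finrank F V - 1, by omega⟩
  have hm3 : 3 ≤ m := by omega
  let b : Basis (Fin (m + 1)) F V := finBasisOfFinrankEq F V hm
  set A := adjugate (M t b) with hA
  have hdet : (M t b).det = 0 := by
    rw [← Matrix.exists_mulVec_eq_zero_iff]
    refine ⟨X, ?_, M_mulVec_X b h1 h2⟩
    intro h
    exact X_ne_zero (R := F) (0 : Fin (m + 1)) (congrFun h 0)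
  have hcol : ∀ l i j, X i * A j l = A i l * X j := by
    intro l i j
    apply prop b h1 h2 h3 (fun j => A j l)
    funext k
    have h4 := Matrix.mul_adjugate (M t b)
    rw [hdet, zero_smul] at h4
    exact congrFun (congrFun h4 k) l
  have hrow : ∀ l i j, X i * A l j = A l i * X j := by
    intro l i j
    apply prop b h1 h2 h3 (fun j => A l j)
    have h4 := Matrix.adjugate_mul (M t b)
    rw [hdet, zero_smul] at h4
    have h5 : (M t b)ᵀ *ᵥ (fun j => A l j) = 0 := by
      rw [Matrix.mulVec_transpose]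
      funext k
      exact congrFun (congrFun h4 l) k
    rw [M_transpose b h1 h2, Matrix.neg_mulVec, neg_eq_zero] at h5
    exact h5
  have hrel : ∀ j, A 0 0 * X j ^ 2 = X 0 ^ 2 * A j j := by
    intro j
    have e1 := hcol 0 0 j
    have e2 := hrow j 0 j
    calc A 0 0 * X j ^ 2 = (A 0 0 * X j) * X j := by ring
      _ = (X 0 * A j 0) * X j := by rw [e1]
      _ = X 0 * (A j 0 * X j) := by ring
      _ = X 0 * (X 0 * A j j) := by rw [e2]
      _ = X 0 ^ 2 * A j j := by ring
  have h01 : (0 : Fin (m + 1)) ≠ Fin.last m := by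
    intro h
    have := congrArg Fin.val h
    simp at this
    omega
  obtain ⟨h, hh⟩ : (X 0 : MvPolynomial (Fin (m + 1)) F) ^ 2 ∣ A 0 0 := by
    apply Prime.pow_dvd_of_dvd_mul_right X_prime 2 (b := X (Fin.last m) ^ 2)
    · intro hd
      have := X_prime.dvd_of_dvd_pow hd
      exact h01 (X_dvd_X.1 this)
    · rw [hrel]; exact Dvd.intro _ rfl
  have hAj : ∀ j, A j j = X j ^ 2 * h := by
    intro j
    have e := hrel j
    rw [hh] at e
    have hne : (X 0 : MvPolynomial (Fin (m + 1)) F) ^ 2 ≠ 0 := pow_ne_zero _ (X_ne_zero _)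
    apply mul_left_cancel₀ hne
    rw [← e]; ring
  have hval : ∀ p : Fin (m + 1) → F, p ≠ 0 → eval p h ≠ 0 := by
    intro p hp hzero
    obtain ⟨i, hi⟩ : ∃ i, p i ≠ 0 := by
      by_contra hcon
      push Not at hcon
      exact hp (funext hcon)
    apply adj_eval_ne b h1 h2 h3 p i hi
    rw [← hA, hAj i, map_mul, hzero, mul_zero]
  have hh0 : h ≠ 0 := by
    rintro rfl
    apply hval (Pi.single 0 1) (by
      intro h
      have := congrFun h 0
      simp at this)
    simp
  have hA0 : A 0 0 ≠ 0 := by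
    rw [hAj 0]
    exact mul_ne_zero (pow_ne_zero _ (X_ne_zero _)) hh0
  have hhom : (A 0 0).IsHomogeneous m := adj_homog t b 0
  have hdeg : h.totalDegree < m + 1 := by
    have e1 := hhom.totalDegree hA0
    rw [hAj 0, totalDegree_mul_of_isDomain (pow_ne_zero _ (X_ne_zero _)) hh0] at e1
    omega
  have hzero : eval (0 : Fin (m + 1) → F) h = 0 := by
    rw [eval_zero, constantCoeff_eq]
    by_contra hcon
    have e2 : coeff (Finsupp.single (0 : Fin (m + 1)) 2) (A 0 0) ≠ 0 := by
      rw [hAj 0, X_pow_eq_monomial]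
      have := coeff_monomial_mul (0 : Fin (m + 1) →₀ ℕ) (Finsupp.single (0 : Fin (m + 1)) 2) (1 : F) h
      rw [add_zero] at this
      rw [this, one_mul]
      exact hcon
    have e3 := hhom e2
    simp [Finsupp.weight_single] at e3
    omega
  obtain ⟨p, hchar⟩ := CharP.exists F
  haveI := hchar
  have hcw := char_dvd_card_solutions (K := F) (σ := Fin (m + 1)) p (f := h) (by
    rw [Fintype.card_fin]; exact hdeg)
  have hone : Fintype.card {x : Fin (m + 1) → F // eval x h = 0} = 1 := by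
    rw [Fintype.card_eq_one_iff]
    refine ⟨⟨0, hzero⟩, ?_⟩
    rintro ⟨x, hx⟩
    apply Subtype.ext
    by_contra hne
    exact hval x hne hx
  rw [hone] at hcw
  have hp1 : p = 1 := Nat.dvd_one.1 hcw
  subst hp1
  exact CharP.char_ne_one F 1 rfl

end GL4
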